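import Mathlib

set_option autoImplicit false

namespace Pool.Agent.Results.MP_bedf46_an.Islands

/-- Sites `(i, j)` with `i ∈ ℤ` and `j ∈ {1, -1}` (the units of `ℤ`). -/
abbrev V : Type := ℤ × ℤˣ

/-- Majority of three bits. -/
def maj (a b c : Bool) : Bool := (a && b) || (a && c) || (b && c)

/-- The 2-line voting. -/
def F (y : V → Bool) : V → Bool := fun v =>
  maj (y (v.1 - 2 * (v.2 : ℤ), v.2)) (y (v.1 - (v.2 : ℤ), v.2)) (y (v.1, -v.2))

/-- `s` is an attractor: every finite perturbation of `s` has a trajectory differing from that of `s`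
at finitely many space-time points. -/
def IsAttractor (s : V → Bool) : Prop :=
  ∀ s' : V → Bool, {v | s' v ≠ s v}.Finite →
    {p : V × ℕ | F^[p.2] s' p.1 ≠ F^[p.2] s p.1}.Finite

lemma loc (t : ℕ) (y y' : V → Bool) : ∀ (i : ℤ) (j : ℤˣ),
    (∀ i' j', i - 2 * t ≤ i' → i' ≤ i + 2 * t → y (i', j') = y' (i', j')) →
    F^[t] y (i, j) = F^[t] y' (i, j) := by
  induction t with
  | zero => intro i j h; exact h i j (by simp) (by simp)
  | succ t ih =>
    intro i j h
    have key : ∀ i' j', i - 2 ≤ i' → i' ≤ i + 2 → F^[t] y (i', j') = F^[t] y' (i', j') :=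
      fun i' j' h1 h2 => ih i' j' fun a b h3 h4 => h a b (by push_cast; omega) (by push_cast; omega)
    simp only [Function.iterate_succ_apply', F]
    have hj : (j : ℤ) = 1 ∨ (j : ℤ) = -1 := by rcases Int.units_eq_one_or j with rfl | rfl <;> simp
    rw [key (i - 2 * j) _ (by omega) (by omega), key (i - j) _ (by omega) (by omega),
      key i _ (by omega) (by omega)]

lemma const (t : ℕ) (b : Bool) : F^[t] (fun _ => b) = fun _ => b :=
  Function.iterate_fixed (by funext v; cases b <;> rfl) t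

lemma erode (y : V → Bool) (A B : ℤ) (h : ∀ i j, y (i, j) = true → A ≤ i ∧ i ≤ B) (t : ℕ) :
    (∀ i, F^[t] y (i, 1) = true → A + t ≤ i ∧ A + 2 * t - (B - A) ≤ i ∧ i ≤ B + t) ∧
    (∀ i, F^[t] y (i, -1) = true → A - t ≤ i ∧ i ≤ B - t ∧ i ≤ B - 2 * t + (B - A)) := by
  induction t with
  | zero =>
    constructor <;> intro i hi <;> have := h i _ hi <;> push_cast <;> omega
  | succ t ih =>
    obtain ⟨h1, h2⟩ := ih
    constructor <;> intro i hi <;>
      simp only [Function.iterate_succ_apply', F, maj, Bool.or_eq_true, Bool.and_eq_true, Units.val_one,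
        Units.val_neg, neg_neg] at hi <;>
      push_cast
    · rcases hi with (⟨a, b⟩ | ⟨a, b⟩) | ⟨a, b⟩
      · have := h1 _ a; have := h1 _ b; omega
      · have := h1 _ a; have := h2 _ b; omega
      · have := h1 _ a; have := h2 _ b; omega
    · rcases hi with (⟨a, b⟩ | ⟨a, b⟩) | ⟨a, b⟩
      · have := h2 _ a; have := h2 _ b; omega
      · have := h2 _ a; have := h1 _ b; omega
      · have := h2 _ a; have := h1 _ b; omega

lemma dead (y : V → Bool) (A B : ℤ) (h : ∀ i j, y (i, j) = true → A ≤ i ∧ i ≤ B) (t : ℕ)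
    (ht : 2 * (B - A) < t) (i : ℤ) (j : ℤˣ) : F^[t] y (i, j) = false := by
  obtain ⟨h1, h2⟩ := erode y A B h t
  rw [← Bool.not_eq_true]
  intro hi
  rcases Int.units_eq_one_or j with rfl | rfl
  · have := h1 i hi; omega
  · have := h2 i hi; omega

open Classical in
noncomputable def s0 (v : V) : Bool := decide (∃ k : ℕ, (100 : ℤ) ^ k ≤ v.1 ∧ v.1 ≤ 2 * 100 ^ k)

lemma s0_gap {k : ℕ} {i : ℤ} {j : ℤˣ} (h : s0 (i, j) = true) :
    0 ≤ i ∧ (i ≤ 2 * 100 ^ k ∨ 100 * 100 ^ k ≤ i) := by
  classical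
  obtain ⟨m, h1, h2⟩ := of_decide_eq_true h
  have h0 : (0 : ℤ) < 100 ^ m := by positivity
  refine ⟨by simp only at h1; omega, ?_⟩
  rcases le_or_gt m k with hm | hm
  · have := pow_le_pow_right₀ (show (1 : ℤ) ≤ 100 by norm_num) hm
    simp only at h2; omega
  · have := pow_le_pow_right₀ (show (1 : ℤ) ≤ 100 by norm_num) (Nat.succ_le_of_lt hm)
    rw [pow_succ] at this
    simp only at h1; omega

lemma big (M : ℤ) : ∃ k : ℕ, M ≤ 100 ^ k := by
  obtain ⟨k, hk⟩ := pow_unbounded_of_one_lt M (show (1 : ℤ) < 100 by norm_num)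
  exact ⟨k, hk.le⟩

lemma attractor : IsAttractor s0 := by
  classical
  intro s' hs
  obtain ⟨M, hM⟩ := (hs.image fun v => |v.1|).bddAbove
  obtain ⟨k, hk⟩ := big M
  set P : ℤ := 100 ^ k with hP
  have hP0 : 0 < P := by positivity
  have agree : ∀ i j, (i < -P ∨ P < i) → s' (i, j) = s0 (i, j) := by
    intro i j h
    by_contra hne
    have := abs_le.1 ((hM ⟨(i, j), hne, rfl⟩).trans hk)
    simp only at this; omega
  obtain ⟨T, hT⟩ : ∃ T : ℕ, (T : ℤ) = 7 * P := ⟨(7 * P).toNat, by omega⟩
  have cut : ∀ y : V → Bool, (∀ i j, y (i, j) = true → -P ≤ i ∧ (i ≤ 2 * P ∨ 100 * P ≤ i)) →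
      ∀ i j, i ≤ 50 * P → F^[T] y (i, j) = false := by
    intro y hy i j hi
    rw [loc T y (fun v => y v && decide (v.1 ≤ 2 * P)) i j fun i' j' _ h2 => ?_]
    · refine dead _ (-P) (2 * P) (fun i j h => ?_) T (by omega) i j
      simp only [Bool.and_eq_true, decide_eq_true_eq] at h
      exact ⟨(hy i j h.1).1, h.2⟩
    · cases h : y (i', j')
      · simp
      · have := hy i' j' h
        simp; omega
  have eqT : F^[T] s' = F^[T] s0 := by
    funext ⟨i, j⟩
    rcases le_or_gt i (50 * P) with h | h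
    · rw [cut s' ?_ i j h, cut s0 ?_ i j h]
      · intro i j h
        have := s0_gap (k := k) h; omega
      · intro i j h
        by_cases h1 : i < -P ∨ P < i
        · rw [agree i j h1] at h
          have := s0_gap (k := k) h; omega
        · omega
    · exact loc T _ _ i j fun i' j' h1 _ => agree i' j' (by omega)
  refine (((Set.finite_Icc (-(15 * P)) (15 * P)).prod (Set.finite_univ (α := ℤˣ))).prod
    (Set.finite_Iio T)).subset ?_
  rintro ⟨⟨i, j⟩, t⟩ h
  have ht : t < T := by
    by_contra h1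
    obtain ⟨m, rfl⟩ : ∃ m, t = m + T := ⟨t - T, by omega⟩
    exact h (by simp only [Function.iterate_add_apply, eqT])
  refine ⟨⟨?_, trivial⟩, ht⟩
  by_contra h1
  simp only [Set.mem_Icc] at h1
  exact h (loc t _ _ i j fun i' j' h2 h3 => agree i' j' (by omega))

/-- The 2-line voting has an attractor whose trajectory has, at every time, infinitely many ones and
infinitely many zeroes. -/
theorem result : ∃ s : V → Bool, IsAttractor s ∧
    ∀ t : ℕ, {v | F^[t] s v = true}.Infinite ∧ {v | F^[t] s v = false}.Infinite := by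
  classical
  refine ⟨s0, attractor, fun t => ⟨fun h => ?_, fun h => ?_⟩⟩
  · obtain ⟨M, hM⟩ := (h.image fun v => v.1).bddAbove
    obtain ⟨k, hk⟩ := big (max (M + 1) (4 * t))
    have h1 : F^[t] s0 (100 ^ k + 2 * t, 1) = true := by
      rw [loc t s0 (fun _ => true) _ _ fun i j h1 h2 => ?_, const]
      exact decide_eq_true ⟨k, by simp only; omega, by simp only; omega⟩
    have := hM ⟨_, h1, rfl⟩
    simp only at this; omega
  · obtain ⟨M, hM⟩ := (h.image fun v => v.1).bddBelow
    have h1 : F^[t] s0 (min (M - 1) (-(2 * t) - 1), 1) = false := by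
      rw [loc t s0 (fun _ => false) _ _ fun i j h1 h2 => ?_, const]
      rw [← Bool.not_eq_true]
      intro h3
      have := (s0_gap (k := 0) h3).1
      omega
    have := hM ⟨_, h1, rfl⟩
    simp only at this; omega

end Pool.Agent.Results.MP_bedf46_an.Islands
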